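import Mathlib
import Pool.Agent.Helper394.Wrap

open Finset Filter Topology

namespace Pool.Agent.Results.MP_ee50b4_pr.ErgodicCycleNoCutoff

noncomputable section

/-- The `t`-fold convolution power `μ^{*t}` of a function on `ZMod n` (with `μ^{*0} = δ_0`):
the law at time `t` of the convolution walk started at `0`. -/
def convPow {n : ℕ} [NeZero n] (μ : ZMod n → ℝ) : ℕ → ZMod n → ℝ
  | 0 => fun x => if x = 0 then 1 else 0
  | t + 1 => fun x => ∑ y, convPow μ t y * μ (x - y)

/-- `‖μ^{*t} - U‖_TV`, with `U` the uniform distribution. -/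
def tv {n : ℕ} [NeZero n] (μ : ZMod n → ℝ) (t : ℕ) : ℝ :=
  (1 / 2 : ℝ) * ∑ x, |convPow μ t x - 1 / (n : ℝ)|

/-- `T_mix(ε) = min {t : ‖μ^{*t} - U‖_TV ≤ ε}`. -/
def tmix {n : ℕ} [NeZero n] (μ : ZMod n → ℝ) (ε : ℝ) : ℕ := sInf {t : ℕ | tv μ t ≤ ε}

/-- The eigenvalue `μ^(j) = ∑_x μ(x) exp(2π i j x / n)`. -/
def hat {n : ℕ} [NeZero n] (μ : ZMod n → ℝ) (j : ZMod n) : ℂ :=
  ∑ x, (μ x : ℂ) * Complex.exp (2 * Real.pi * Complex.I * (j.val : ℂ) * (x.val : ℂ) / (n : ℂ))

/-- The spectral gap `1 - max_{j ≠ 0} |μ^(j)|`. -/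
def gap {n : ℕ} [NeZero n] (μ : ZMod n → ℝ) : ℝ := 1 - ⨆ j : {j : ZMod n // j ≠ 0}, ‖hat μ j‖

/-- The relaxation time, the inverse of the spectral gap. -/
def trel {n : ℕ} [NeZero n] (μ : ZMod n → ℝ) : ℝ := 1 / gap μ

/-- `μ` is a probability measure on `ZMod n`. -/
def IsProb {n : ℕ} [NeZero n] (μ : ZMod n → ℝ) : Prop := (∀ x, 0 ≤ μ x) ∧ ∑ x, μ x = 1

/-- The walk is ergodic: the support of `μ` is not contained in any coset of a proper
subgroup. -/
def IsErgodic {n : ℕ} [NeZero n] (μ : ZMod n → ℝ) : Prop :=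
  ∀ (H : AddSubgroup (ZMod n)) (a : ZMod n), (∀ x, μ x ≠ 0 → x - a ∈ H) → H = ⊤

section

variable {N : ℕ} [NeZero N]

/-- The step distribution: stay put with probability one half, otherwise uniform on `S`. -/
def mu (S : Finset (ZMod N)) (x : ZMod N) : ℝ :=
  (if x = 0 then 1 / 2 else 0) + (if x ∈ S then 1 / (2 * (S.card : ℝ)) else 0)

/-- The transition matrix `P(x,y) = μ(y-x)`. -/
def mat (μ : ZMod N → ℝ) : Matrix (ZMod N) (ZMod N) ℝ := fun x y => μ (y - x)

theorem convPow_eq (μ : ZMod N → ℝ) (t : ℕ) (x : ZMod N) :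
    convPow μ t x = (mat μ ^ t) 0 x := by
  induction t generalizing x with
  | zero =>
    simp only [convPow, pow_zero, Matrix.one_apply]
    by_cases h : x = 0
    · simp [h]
    · simp [h, Ne.symm h]
  | succ t ih =>
    simp only [convPow, pow_succ, Matrix.mul_apply, ih]
    rfl

theorem mat_mulVec (S : Finset (ZMod N)) (f : ZMod N → ℝ) :
    (mat (mu S)).mulVec f = Helper394.V S f := by
  ext x
  rw [Helper394.V_apply, Helper394.U_apply]
  simp only [Matrix.mulVec, dotProduct, mat, mu, add_mul, ite_mul, zero_mul]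
  rw [Finset.sum_add_distrib]
  congr 1
  · have : ∀ y : ZMod N, (y - x = 0) ↔ (y = x) := fun y => sub_eq_zero
    simp only [this]
    rw [Finset.sum_ite_eq' univ x]
    simp
    ring
  · rw [← Finset.sum_filter]
    rw [div_div, Finset.sum_div]
    refine Finset.sum_bij' (fun y _ => y - x) (fun s _ => x + s) ?_ ?_ ?_ ?_ ?_
    · intro y hy; simpa using hy
    · intro s hs; simpa using hs
    · intro y _; simp
    · intro s _; simp
    · intro y _
      simp only [add_sub_cancel]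
      ring

theorem hat_bound {S : Finset (ZMod N)} {T : ℕ} (h : Helper394.Bad S T) (j : ZMod N)
    (hj : j ≠ 0) : ‖hat (mu S) j‖ ≤ 7 / 8 := by
  have hSc : (0 : ℝ) < S.card := by exact_mod_cast h.nonempty.card_pos
  set χ : AddChar (ZMod N) ℂ := AddChar.mulShift ZMod.stdAddChar j with hχ
  have hχ1 : χ ≠ 1 := by
    have := ZMod.isPrimitive_stdAddChar N hj
    intro h1
    exact this h1
  have hex : ∀ x : ZMod N, χ x =
      Complex.exp (2 * Real.pi * Complex.I * (j.val : ℂ) * (x.val : ℂ) / (N : ℂ)) := by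
    intro x
    have e1 : j * x = (((j.val * x.val : ℕ) : ℤ) : ZMod N) := by
      push_cast
      rw [ZMod.natCast_zmod_val, ZMod.natCast_zmod_val]
    rw [hχ, AddChar.mulShift_apply, e1, ZMod.stdAddChar_coe]
    congr 1
    push_cast
    ring
  have e2 : hat (mu S) j = 1 / 2 + (1 / (2 * (S.card : ℂ))) * (∑ s ∈ S, χ s) := by
    unfold hat mu
    simp only [Complex.ofReal_add, add_mul]
    rw [Finset.sum_add_distrib]
    congr 1
    · rw [Finset.sum_eq_single (0 : ZMod N)]
      · simp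
      · intro b _ hb; simp [hb]
      · intro hb; exact absurd (Finset.mem_univ _) hb
    · rw [Finset.mul_sum, ← Finset.sum_subset (Finset.subset_univ S)]
      · refine Finset.sum_congr rfl fun s hs => ?_
        rw [hex, if_pos hs]
        push_cast
        ring
      · intro x _ hx
        simp [hx]
  have h4 := h.char χ hχ1
  rw [e2]
  calc ‖(1 / 2 : ℂ) + (1 / (2 * (S.card : ℂ))) * (∑ s ∈ S, χ s)‖
      ≤ ‖(1 / 2 : ℂ)‖ + ‖(1 / (2 * (S.card : ℂ))) * (∑ s ∈ S, χ s)‖ := norm_add_le _ _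
    _ = 1 / 2 + (1 / (2 * (S.card : ℝ))) * ‖∑ s ∈ S, χ s‖ := by
        rw [norm_mul]
        norm_num
    _ ≤ 1 / 2 + (1 / (2 * (S.card : ℝ))) * (3 / 4 * S.card) := by gcongr
    _ = 7 / 8 := by field_simp; norm_num

theorem mu_prob {S : Finset (ZMod N)} {T : ℕ} (h : Helper394.Bad S T) : IsProb (mu S) := by
  have hSc : (0 : ℝ) < S.card := by exact_mod_cast h.nonempty.card_pos
  refine ⟨?_, ?_⟩
  · intro x
    unfold mu
    split_ifs <;> positivity
  · unfold mu
    rw [Finset.sum_add_distrib, Finset.sum_ite_eq' univ (0 : ZMod N)]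
    rw [Finset.sum_ite_mem, Finset.univ_inter, Finset.sum_const, nsmul_eq_mul]
    simp only [Finset.mem_univ, if_true]
    field_simp
    norm_num

theorem mu_ergodic {S : Finset (ZMod N)} {T : ℕ} (h : Helper394.Bad S T) :
    IsErgodic (mu S) := by
  intro H a ha
  have hSc : (0 : ℝ) < S.card := by exact_mod_cast h.nonempty.card_pos
  have h0 : mu S 0 ≠ 0 := by
    have h1 : (0 : ℝ) ≤ if (0 : ZMod N) ∈ S then 1 / (2 * (S.card : ℝ)) else 0 := by
      split_ifs <;> positivity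
    show (if (0 : ZMod N) = 0 then (1 / 2 : ℝ) else 0) + _ ≠ 0
    rw [if_pos rfl]
    have : (0 : ℝ) < 1 / 2 + (if (0 : ZMod N) ∈ S then 1 / (2 * (S.card : ℝ)) else 0) := by
      linarith
    exact this.ne'
  have haH : a ∈ H := by
    have := ha 0 h0
    rw [zero_sub] at this
    exact (AddSubgroup.neg_mem_iff H).1 this
  rw [eq_top_iff]
  intro x _
  refine h.closed (H : Set (ZMod N)) 0 (AddSubgroup.zero_mem _) ?_ x
  intro y hy s hs
  have hs0 : mu S s ≠ 0 := by
    have h0 : s ≠ 0 := fun h0 => h.zero (h0 ▸ hs)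
    show (if s = 0 then (1 / 2 : ℝ) else 0) + (if s ∈ S then 1 / (2 * (S.card : ℝ)) else 0) ≠ 0
    rw [if_neg h0, if_pos hs]
    positivity
  have h3 := H.add_mem (ha s hs0) haH
  rw [sub_add_cancel] at h3
  exact H.add_mem hy h3

end

/-- There are cycles `ZMod (n k)` with `n k → ∞` and ergodic convolution walks on them with
`T_rel / T_mix(1/2) → 0` which have no total variation cutoff. -/
theorem result :
    ∃ (n : ℕ → ℕ) (_ : ∀ k, NeZero (n k)) (μ : ∀ k, ZMod (n k) → ℝ),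
      Tendsto n atTop atTop ∧
      (∀ k, IsProb (μ k)) ∧
      (∀ k, IsErgodic (μ k)) ∧
      Tendsto (fun k => trel (μ k) / (tmix (μ k) (1 / 2) : ℝ)) atTop (𝓝 0) ∧
      ¬ (∀ ε : ℝ, 0 < ε → ε < 1 / 2 →
        Tendsto (fun k => (tmix (μ k) ε : ℝ) / (tmix (μ k) (1 - ε) : ℝ)) atTop (𝓝 1)) := by
  choose N hN S hTN hS using fun n : ℕ => Helper394.exists_bad (n + 64) (by omega)
  have hP : ∀ n, ∀ f : ZMod (N n) → ℝ, (mat (mu (S n))).mulVec f = Helper394.V (S n) f :=
    fun n f => mat_mulVec (S n) f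
  have htv : ∀ n t, tv (mu (S n)) t =
      (1 / 2 : ℝ) * ∑ y, |(mat (mu (S n)) ^ t) 0 y - 1 / (Fintype.card (ZMod (N n)) : ℝ)| := by
    intro n t
    simp only [tv, convPow_eq, ZMod.card]
  have h1 : ∀ n, ∀ t ≤ n + 64, 1 / 2 < tv (mu (S n)) t := by
    intro n t ht
    have h := Helper394.fact_lower (hS n) (hP n) t ht
    rw [htv]
    linarith
  have h2 : ∀ n, tv (mu (S n)) (2 * ((n + 64) / 8) + 1) ≤ 1 - 1 / 2000 := by
    intro n
    rw [htv]
    exact Helper394.fact_upper (hS n) (hP n) ((n + 64) / 8) (by omega) 0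
  have h3 : ∀ n ε, 0 < ε → ∃ t, tv (mu (S n)) t ≤ ε := by
    intro n ε hε
    have hG : (0 : ℝ) < Fintype.card (ZMod (N n)) := by exact_mod_cast Fintype.card_pos
    obtain ⟨t, ht⟩ := Helper394.fact_conv (hS n) (hP n) (ε / Fintype.card (ZMod (N n)))
      (by positivity)
    refine ⟨t, ?_⟩
    rw [htv]
    calc (1 / 2 : ℝ) * ∑ y, |((mat (mu (S n))) ^ t) 0 y - 1 / (Fintype.card (ZMod (N n)) : ℝ)|
        ≤ (1 / 2 : ℝ) * ∑ _y : ZMod (N n), ε / Fintype.card (ZMod (N n)) := by
          gcongr with y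
          exact ht 0 y
      _ = ε / 2 := by
          simp only [Finset.sum_const, Finset.card_univ, nsmul_eq_mul]
          field_simp
      _ ≤ ε := by linarith
  refine ⟨N, hN, fun k => mu (S k), ?_, fun k => mu_prob (hS k), fun k => mu_ergodic (hS k),
    ?_, ?_⟩
  · refine tendsto_atTop_mono (fun n => ?_) tendsto_id
    have := hTN n
    simp only [id]
    omega
  · have hinf : Tendsto (fun k => (tmix (mu (S k)) (1 / 2) : ℝ) / trel (mu (S k)))
        atTop atTop := by
      apply Helper394.tendsto_div_of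
      · intro n
        exact Helper394.sInf_gt _ (n + 64) _ le_rfl (h1 n) (h3 n _ (by norm_num))
      · intro n
        have h5 : (⨆ j : {j : ZMod (N n) // j ≠ 0}, ‖hat (mu (S n)) j‖) ≤ 7 / 8 :=
          Real.iSup_le (fun j => hat_bound (hS n) j.1 j.2) (by norm_num)
        have h6 : 0 < gap (mu (S n)) := by unfold gap; linarith
        refine ⟨one_div_pos.mpr h6, ?_⟩
        rw [trel, div_le_iff₀ h6]
        unfold gap
        linarith
    refine (hinf.inv_tendsto_atTop).congr fun k => ?_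
    show ((tmix (mu (S k)) (1 / 2) : ℝ) / trel (mu (S k)))⁻¹ = _
    rw [inv_div]
  · intro hcut
    exact Helper394.no_cutoff_of (fun n => tv (mu (S n))) h1 h2 h3
      (hcut (1 / 2000) (by norm_num) (by norm_num))

end

end Pool.Agent.Results.MP_ee50b4_pr.ErgodicCycleNoCutoff
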